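import Pool.Agent.H117R2.UC.Defs

/-!
# Union-closed constant 0.383, task T04 (`G_cross`), by helper301
-/

set_option autoImplicit false

namespace Pool.Agent.H301R2.UC04

open Real Pool.Agent.H117R2.UC

/-- cofactor of `(x-y)^2` -/
noncomputable def gQ (x y : ℝ) : ℝ :=
  -6 - 4 * y + 16 * y ^ 2 - 4 * y ^ 3 - 2 * y ^ 4
    + x * (-4 + 30 * y + 28 * y ^ 2 - 34 * y ^ 3 + 4 * y ^ 4)
    + x ^ 2 * (16 + 28 * y - 30 * y ^ 2 - 40 * y ^ 3 + 18 * y ^ 4)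
    + x ^ 3 * (-4 - 34 * y - 40 * y ^ 2 + 6 * y ^ 3 + 16 * y ^ 4)
    + x ^ 4 * (-2 + 4 * y + 18 * y ^ 2 + 16 * y ^ 3 + 4 * y ^ 4)

theorem g_Q_bern (x y : ℝ) : gQ x y * (214358881 / 25600000000) =
      (14674037961 / 6400000000) * ((x - 9 / 20) ^ 0 * (1 - x) ^ 4 * ((y - 9 / 20) ^ 0 * (1 - y) ^ 4)) +
      (2859936761 / 160000000) * ((x - 9 / 20) ^ 0 * (1 - x) ^ 4 * ((y - 9 / 20) ^ 1 * (1 - y) ^ 3)) +
      (236578837 / 6400000) * ((x - 9 / 20) ^ 0 * (1 - x) ^ 4 * ((y - 9 / 20) ^ 2 * (1 - y) ^ 2)) +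
      (10654897 / 400000) * ((x - 9 / 20) ^ 0 * (1 - x) ^ 4 * ((y - 9 / 20) ^ 3 * (1 - y) ^ 1)) +
      (22869 / 4000) * ((x - 9 / 20) ^ 0 * (1 - x) ^ 4 * ((y - 9 / 20) ^ 4 * (1 - y) ^ 0)) +
      (2859936761 / 160000000) * ((x - 9 / 20) ^ 1 * (1 - x) ^ 3 * ((y - 9 / 20) ^ 0 * (1 - y) ^ 4)) +
      (3359455979 / 32000000) * ((x - 9 / 20) ^ 1 * (1 - x) ^ 3 * ((y - 9 / 20) ^ 1 * (1 - y) ^ 3)) +
      (297695453 / 1600000) * ((x - 9 / 20) ^ 1 * (1 - x) ^ 3 * ((y - 9 / 20) ^ 2 * (1 - y) ^ 2)) +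
      (73084 / 625) * ((x - 9 / 20) ^ 1 * (1 - x) ^ 3 * ((y - 9 / 20) ^ 3 * (1 - y) ^ 1)) +
      (21417 / 1000) * ((x - 9 / 20) ^ 1 * (1 - x) ^ 3 * ((y - 9 / 20) ^ 4 * (1 - y) ^ 0)) +
      (236578837 / 6400000) * ((x - 9 / 20) ^ 2 * (1 - x) ^ 2 * ((y - 9 / 20) ^ 0 * (1 - y) ^ 4)) +
      (297695453 / 1600000) * ((x - 9 / 20) ^ 2 * (1 - x) ^ 2 * ((y - 9 / 20) ^ 1 * (1 - y) ^ 3)) +
      (573177 / 2000) * ((x - 9 / 20) ^ 2 * (1 - x) ^ 2 * ((y - 9 / 20) ^ 2 * (1 - y) ^ 2)) +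
      (18513 / 125) * ((x - 9 / 20) ^ 2 * (1 - x) ^ 2 * ((y - 9 / 20) ^ 3 * (1 - y) ^ 1)) +
      (484 / 25) * ((x - 9 / 20) ^ 2 * (1 - x) ^ 2 * ((y - 9 / 20) ^ 4 * (1 - y) ^ 0)) +
      (10654897 / 400000) * ((x - 9 / 20) ^ 3 * (1 - x) ^ 1 * ((y - 9 / 20) ^ 0 * (1 - y) ^ 4)) +
      (73084 / 625) * ((x - 9 / 20) ^ 3 * (1 - x) ^ 1 * ((y - 9 / 20) ^ 1 * (1 - y) ^ 3)) +
      (18513 / 125) * ((x - 9 / 20) ^ 3 * (1 - x) ^ 1 * ((y - 9 / 20) ^ 2 * (1 - y) ^ 2)) +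
      (242 / 5) * ((x - 9 / 20) ^ 3 * (1 - x) ^ 1 * ((y - 9 / 20) ^ 3 * (1 - y) ^ 1)) +
      (22869 / 4000) * ((x - 9 / 20) ^ 4 * (1 - x) ^ 0 * ((y - 9 / 20) ^ 0 * (1 - y) ^ 4)) +
      (21417 / 1000) * ((x - 9 / 20) ^ 4 * (1 - x) ^ 0 * ((y - 9 / 20) ^ 1 * (1 - y) ^ 3)) +
      (484 / 25) * ((x - 9 / 20) ^ 4 * (1 - x) ^ 0 * ((y - 9 / 20) ^ 2 * (1 - y) ^ 2)) := by
  unfold gQ
  ring

theorem gQ_nonneg {x y : ℝ} (hx0 : 9 / 20 ≤ x) (hx1 : x ≤ 1) (hy0 : 9 / 20 ≤ y) (hy1 : y ≤ 1) :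
    0 ≤ gQ x y := by
  have h := g_Q_bern x y
  have a1 : 0 ≤ x - 9 / 20 := by linarith
  have a2 : 0 ≤ 1 - x := by linarith
  have a3 : 0 ≤ y - 9 / 20 := by linarith
  have a4 : 0 ≤ 1 - y := by linarith
  have h2 : 0 ≤ gQ x y * ((11 / 20) ^ 8) := by
    have : ((11 : ℝ) / 20) ^ 8 = 214358881 / 25600000000 := by norm_num
    rw [this, h]
    positivity
  exact nonneg_of_mul_nonneg_left h2 (by positivity)

/-- numerator of `Gk x y` -/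
noncomputable def gGN (x y : ℝ) : ℝ :=
  4 * (x * y) * (1 - x * y) ^ 3 + (1 - 2 * (x * y)) * (1 - x * y) * (x + y - 2 * (x * y)) ^ 2
    - (x ^ 2 * (1 - y) ^ 2 + y ^ 2 * (1 - x) ^ 2) ^ 2

/-- numerator of `Gk x x` -/
noncomputable def gGD (x : ℝ) : ℝ :=
  4 * x ^ 2 * (1 - x ^ 2) * (1 + x) ^ 2 + 4 * x ^ 2 * (1 - 2 * x ^ 2) * (1 - x) * (1 + x)
    - 4 * x ^ 4 * (1 - x) ^ 2

theorem g_max {x y : ℝ} (hx0 : 9 / 20 ≤ x) (hx1 : x ≤ 1) (hy0 : 9 / 20 ≤ y) (hy1 : y ≤ 1) :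
    max 0 (1 / 2 + 3 / 2 * (x * y) - x - y) = 0 := by
  apply max_eq_left
  nlinarith [mul_nonneg (sub_nonneg.mpr hx0) (sub_nonneg.mpr hy1),
    mul_nonneg (sub_nonneg.mpr hy0) (sub_nonneg.mpr hx1),
    mul_nonneg (sub_nonneg.mpr hx1) (sub_nonneg.mpr hy1),
    mul_nonneg (sub_nonneg.mpr hx0) (sub_nonneg.mpr hy0)]

theorem g_cross_eq {x y : ℝ} (hx0 : 9 / 20 ≤ x) (hx1 : x ≤ 1) (hy0 : 9 / 20 ≤ y) (hy1 : y ≤ 1)
    (hxy : x * y < 1) : Gk x y = gGN x y / (1 - x * y) ^ 2 := by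
  have h : (1 - x * y) ≠ 0 := by linarith
  unfold Gk gGN
  rw [g_max hx0 hx1 hy0 hy1]
  field_simp
  ring

theorem g_diag_eq {x : ℝ} (hx0 : 9 / 20 ≤ x) (hx1 : x ≤ 1) : Gk x x = gGD x / (1 + x) ^ 2 := by
  rcases eq_or_lt_of_le hx1 with h1 | h1
  · subst h1
    unfold Gk gGD
    norm_num
  · have h : x * x < 1 := by nlinarith
    rw [g_cross_eq hx0 hx1 hx0 hx1 h]
    have h2 : (1 - x * x) = (1 - x) * (1 + x) := by ring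
    have h3 : (1 - x) ≠ 0 := by linarith
    have h4 : (1 + x) ≠ 0 := by linarith
    unfold gGN gGD
    rw [h2]
    field_simp
    ring

theorem G_cross {x y : ℝ} (hx0 : 9 / 20 ≤ x) (hx1 : x ≤ 1) (hy0 : 9 / 20 ≤ y) (hy1 : y ≤ 1) :
    (Gk x x + Gk y y) / 2 ≤ Gk x y := by
  have hle : x * y ≤ 1 := by nlinarith
  rcases eq_or_lt_of_le hle with h1 | h1
  · -- x = y = 1
    have hx : x = 1 := by nlinarith
    have hy : y = 1 := by nlinarith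
    subst hx; subst hy
    linarith
  · rw [g_cross_eq hx0 hx1 hy0 hy1 h1, g_diag_eq hx0 hx1, g_diag_eq hy0 hy1]
    have hQ := gQ_nonneg hx0 hx1 hy0 hy1
    have hkey : 2 * gGN x y * ((1 + x) ^ 2 * (1 + y) ^ 2) -
        (1 - x * y) ^ 2 * (gGD x * (1 + y) ^ 2 + gGD y * (1 + x) ^ 2) = (x - y) ^ 2 * gQ x y := by
      unfold gGN gGD gQ
      ring
    have p1 : 0 < (1 + x) ^ 2 := by have : 0 < 1 + x := by linarith
                                    positivity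
    have p2 : 0 < (1 + y) ^ 2 := by have : 0 < 1 + y := by linarith
                                    positivity
    have p3 : 0 < (1 - x * y) ^ 2 := by have : 0 < 1 - x * y := by linarith
                                        positivity
    rw [div_add_div _ _ p1.ne' p2.ne', div_div, div_le_div_iff₀ (by positivity) p3]
    have h5 : 0 ≤ (x - y) ^ 2 * gQ x y := mul_nonneg (sq_nonneg _) hQ
    nlinarith [h5, hkey]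

end Pool.Agent.H301R2.UC04
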