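import Mathlib

set_option autoImplicit false

namespace Pool.Agent.H301R2.Sub

open Finset

/-- differences of square roots -/
theorem sqrt_diff_nonneg (k : ℕ) : 0 ≤ Real.sqrt (k + 1) - Real.sqrt k := by
  have : Real.sqrt k ≤ Real.sqrt (k + 1) := Real.sqrt_le_sqrt (by linarith)
  linarith

theorem sqrt_diff_sq (k : ℕ) (hk : 1 ≤ k) :
    4 * (Real.sqrt (k + 1) - Real.sqrt k) ^ 2 ≤ 1 / k := by
  have hk' : (0 : ℝ) < k := by exact_mod_cast hk
  have h1 : Real.sqrt (k + 1) ^ 2 = k + 1 := Real.sq_sqrt (by positivity)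
  have h2 : Real.sqrt k ^ 2 = k := Real.sq_sqrt (by positivity)
  have h3 : 0 < Real.sqrt k := Real.sqrt_pos.2 hk'
  have h4 : Real.sqrt k ≤ Real.sqrt (k + 1) := Real.sqrt_le_sqrt (by linarith)
  set a := Real.sqrt (k + 1)
  set b := Real.sqrt k
  have h5 : (a - b) * (a + b) = 1 := by nlinarith
  have h6 : a - b ≤ 1 / (2 * b) := by
    rw [le_div_iff₀ (by positivity)]
    nlinarith [sub_nonneg.2 h4]
  have h7 : 0 ≤ a - b := sub_nonneg.2 h4
  have h8 : (a - b) ^ 2 ≤ (1 / (2 * b)) ^ 2 := by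
    exact pow_le_pow_left₀ h7 h6 2
  have h9 : (1 / (2 * b)) ^ 2 = 1 / (4 * k) := by
    rw [div_pow, mul_pow, h2]; norm_num
  rw [h9] at h8
  have : 4 * (1 / (4 * (k : ℝ))) = 1 / k := by field_simp
  linarith

/-- `4 ∑_{k<d} (√(k+1) - √k)^2 ≤ 5 + log d` -/
theorem H_le (d : ℕ) (hd : 1 ≤ d) :
    4 * ∑ k ∈ range d, (Real.sqrt (k + 1) - Real.sqrt k) ^ 2 ≤ 5 + Real.log d := by
  obtain ⟨m, rfl⟩ : ∃ m, d = m + 1 := ⟨d - 1, by omega⟩
  rw [Finset.sum_range_succ', mul_add]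
  have h0 : 4 * (Real.sqrt ((0 : ℕ) + 1) - Real.sqrt ((0 : ℕ) : ℝ)) ^ 2 = 4 := by
    norm_num
  have h1 : 4 * ∑ k ∈ range m, (Real.sqrt ((k + 1 : ℕ) + 1) - Real.sqrt ((k + 1 : ℕ) : ℝ)) ^ 2 ≤
      ∑ k ∈ range m, (1 : ℝ) / ((k + 1 : ℕ) : ℝ) := by
    rw [Finset.mul_sum]
    apply Finset.sum_le_sum
    intro k _
    exact sqrt_diff_sq (k + 1) (by omega)
  have h2 : ∑ k ∈ range m, (1 : ℝ) / ((k + 1 : ℕ) : ℝ) ≤ 1 + Real.log m := by
    have := harmonic_le_one_add_log m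
    unfold harmonic at this
    push_cast at this ⊢
    simpa [one_div] using this
  have h3 : Real.log m ≤ Real.log ((m + 1 : ℕ) : ℝ) := by
    rcases Nat.eq_zero_or_pos m with rfl | hm
    · simp
    · apply Real.log_le_log (by exact_mod_cast hm)
      push_cast; linarith
  linarith

/-- Abel summation for a nonnegative decreasing sequence with small partial sums. -/
theorem abel (b : ℕ → ℝ) (c : ℝ) (hb : ∀ k, 0 ≤ b k) (hanti : ∀ k, b (k + 1) ≤ b k)
    (d : ℕ) (hB : ∀ k ≤ d, ∑ i ∈ range k, b i ≤ c * Real.sqrt k) :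
    ∀ m ≤ d, b m * (c * Real.sqrt m - ∑ i ∈ range m, b i) + ∑ k ∈ range m, b k ^ 2 ≤
      c * ∑ k ∈ range m, b k * (Real.sqrt (k + 1) - Real.sqrt k) := by
  intro m
  induction m with
  | zero => intro _; simp
  | succ m ih =>
    intro hm
    have h1 := ih (by omega)
    have h2 := hB (m + 1) hm
    rw [Finset.sum_range_succ (fun k => b k ^ 2), Finset.sum_range_succ (fun i => b i),
      Finset.sum_range_succ (fun k => b k * (Real.sqrt (k + 1) - Real.sqrt k))]
    rw [Finset.sum_range_succ] at h2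
    have h3 := hanti m
    push_cast at h2 ⊢
    have h4 : b (m + 1) * (c * Real.sqrt (m + 1) - (∑ i ∈ range m, b i + b m)) ≤
        b m * (c * Real.sqrt (m + 1) - (∑ i ∈ range m, b i + b m)) := by
      apply mul_le_mul_of_nonneg_right h3
      linarith
    nlinarith

theorem sum_sq_le (b : ℕ → ℝ) (c : ℝ) (hc : 0 ≤ c) (hb : ∀ k, 0 ≤ b k)
    (hanti : ∀ k, b (k + 1) ≤ b k)
    (d : ℕ) (hB : ∀ k ≤ d, ∑ i ∈ range k, b i ≤ c * Real.sqrt k) :
    ∑ k ∈ range d, b k ^ 2 ≤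
      c ^ 2 * ∑ k ∈ range d, (Real.sqrt (k + 1) - Real.sqrt k) ^ 2 := by
  have h1 := abel b c hb hanti d hB d le_rfl
  have h2 : 0 ≤ b d * (c * Real.sqrt d - ∑ i ∈ range d, b i) :=
    mul_nonneg (hb d) (by have := hB d le_rfl; linarith)
  have h3 : ∑ k ∈ range d, b k ^ 2 ≤
      c * ∑ k ∈ range d, b k * (Real.sqrt (k + 1) - Real.sqrt k) := by linarith
  have h4 := Finset.sum_mul_sq_le_sq_mul_sq (range d) b
    (fun k => Real.sqrt (k + 1) - Real.sqrt k)
  set X := ∑ k ∈ range d, b k ^ 2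
  set Y := ∑ k ∈ range d, b k * (Real.sqrt (k + 1) - Real.sqrt k)
  set Z := ∑ k ∈ range d, (Real.sqrt (k + 1) - Real.sqrt k) ^ 2
  have hX : 0 ≤ X := Finset.sum_nonneg fun _ _ => sq_nonneg _
  have hZ : 0 ≤ Z := Finset.sum_nonneg fun _ _ => sq_nonneg _
  have hY : 0 ≤ Y := Finset.sum_nonneg fun k _ => mul_nonneg (hb k) (sqrt_diff_nonneg k)
  -- X ≤ c Y, Y^2 ≤ X Z
  have h5 : X ^ 2 ≤ c ^ 2 * (X * Z) := by
    calc X ^ 2 ≤ (c * Y) ^ 2 := pow_le_pow_left₀ hX h3 2
      _ = c ^ 2 * Y ^ 2 := by ring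
      _ ≤ c ^ 2 * (X * Z) := mul_le_mul_of_nonneg_left h4 (sq_nonneg c)
  rcases hX.eq_or_lt with h | h
  · rw [← h]; positivity
  · have : X * X ≤ X * (c ^ 2 * Z) := by nlinarith
    exact le_of_mul_le_mul_left this h

/-- majorisation: a nonnegative vector whose subset sums are at most `c √|S|` -/
theorem vec_bound {d : ℕ} (b : Fin d → ℝ) (c : ℝ) (hc : 0 ≤ c) (hb : ∀ i, 0 ≤ b i)
    (hB : ∀ S : Finset (Fin d), ∑ i ∈ S, b i ≤ c * Real.sqrt S.card) :
    ∑ i, b i ^ 2 ≤ c ^ 2 * ∑ k ∈ range d, (Real.sqrt (k + 1) - Real.sqrt k) ^ 2 := by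
  classical
  set σ := Tuple.sort (fun i => - b i) with hσ
  have hmono : Monotone ((fun i => - b i) ∘ σ) := Tuple.monotone_sort _
  set b' : ℕ → ℝ := fun k => if h : k < d then b (σ ⟨k, h⟩) else 0 with hb'
  have h1 : ∀ k, 0 ≤ b' k := by
    intro k
    simp only [hb']
    split_ifs
    · exact hb _
    · exact le_rfl
  have h2 : ∀ k, b' (k + 1) ≤ b' k := by
    intro k
    by_cases h : k + 1 < d
    · have hk : k < d := by omega
      simp only [hb', dif_pos h, dif_pos hk]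
      have := hmono (show (⟨k, hk⟩ : Fin d) ≤ ⟨k + 1, h⟩ from by
        rw [Fin.mk_le_mk]; omega)
      simp only [Function.comp] at this
      linarith
    · have : b' (k + 1) = 0 := by simp only [hb', dif_neg h]
      rw [this]; exact h1 k
  have h3 : ∀ k ≤ d, ∑ i ∈ range k, b' i ≤ c * Real.sqrt k := by
    intro k hk
    set S : Finset (Fin d) := (univ : Finset (Fin k)).image (fun i => σ (Fin.castLE hk i))
    have hinj : Function.Injective (fun i : Fin k => σ (Fin.castLE hk i)) :=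
      σ.injective.comp (Fin.castLE_injective hk)
    have hcard : S.card = k := by
      rw [Finset.card_image_of_injective _ hinj, Finset.card_univ, Fintype.card_fin]
    have hsum : ∑ i ∈ S, b i = ∑ i ∈ range k, b' i := by
      rw [Finset.sum_image (fun a _ b _ h => hinj h), Finset.sum_range]
      apply Finset.sum_congr rfl
      intro i _
      have : (i : ℕ) < d := lt_of_lt_of_le i.2 hk
      simp only [hb', dif_pos this]
      rfl
    rw [← hsum]
    have := hB S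
    rw [hcard] at this
    exact this
  have h4 := sum_sq_le b' c hc h1 h2 d h3
  have h5 : ∑ k ∈ range d, b' k ^ 2 = ∑ i, b i ^ 2 := by
    rw [Finset.sum_range]
    rw [← Equiv.sum_comp σ (fun i => b i ^ 2)]
    apply Finset.sum_congr rfl
    intro i _
    simp only [hb', dif_pos i.2, Fin.eta]
  rw [h5] at h4
  exact h4

end Pool.Agent.H301R2.Sub
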