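import Pool.Agent.H301R2.Sub

set_option autoImplicit false

namespace Pool.Agent.H301R2.Sub

open Finset

/-- sums of decreasing differences over a finite set of naturals -/
theorem sum_diff_le (L : Finset ℕ) :
    ∑ l ∈ L, (Real.sqrt (l + 1) - Real.sqrt l) ≤ Real.sqrt L.card := by
  classical
  induction L using Finset.induction_on_max with
  | empty => simp
  | insert M L hM ih =>
    have hMn : M ∉ L := fun h => lt_irrefl _ (hM M h)
    rw [Finset.sum_insert hMn, Finset.card_insert_of_notMem hMn]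
    have hcard : L.card ≤ M := by
      have : L ⊆ range M := fun x hx => mem_range.2 (hM x hx)
      simpa using Finset.card_le_card this
    have hc : (L.card : ℝ) ≤ M := by exact_mod_cast hcard
    -- √(M+1) - √M ≤ √(s+1) - √s
    have key : Real.sqrt (M + 1) - Real.sqrt M ≤
        Real.sqrt ((L.card : ℝ) + 1) - Real.sqrt L.card := by
      set s : ℝ := (L.card : ℝ) with hs
      have hs0 : 0 ≤ s := by positivity
      have e1 : (Real.sqrt (M + 1) - Real.sqrt M) * (Real.sqrt (M + 1) + Real.sqrt M) = 1 := by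
        have a1 := Real.sq_sqrt (show (0 : ℝ) ≤ (M : ℝ) + 1 by positivity)
        have a2 := Real.sq_sqrt (show (0 : ℝ) ≤ (M : ℝ) by positivity)
        nlinarith
      have e2 : (Real.sqrt (s + 1) - Real.sqrt s) * (Real.sqrt (s + 1) + Real.sqrt s) = 1 := by
        have a1 := Real.sq_sqrt (show (0 : ℝ) ≤ s + 1 by positivity)
        have a2 := Real.sq_sqrt hs0
        nlinarith
      have p1 : 0 < Real.sqrt (s + 1) + Real.sqrt s := by
        have : 0 < Real.sqrt (s + 1) := Real.sqrt_pos.2 (by positivity)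
        have := Real.sqrt_nonneg s
        linarith
      have p2 : Real.sqrt (s + 1) + Real.sqrt s ≤ Real.sqrt (M + 1) + Real.sqrt M :=
        add_le_add (Real.sqrt_le_sqrt (by linarith)) (Real.sqrt_le_sqrt hc)
      have p3 : 0 ≤ Real.sqrt (M + 1) - Real.sqrt M := sqrt_diff_nonneg M
      by_contra hlt
      push Not at hlt
      have : (Real.sqrt (s + 1) - Real.sqrt s) * (Real.sqrt (s + 1) + Real.sqrt s) <
          (Real.sqrt (M + 1) - Real.sqrt M) * (Real.sqrt (M + 1) + Real.sqrt M) := by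
        calc (Real.sqrt (s + 1) - Real.sqrt s) * (Real.sqrt (s + 1) + Real.sqrt s)
            < (Real.sqrt (M + 1) - Real.sqrt M) * (Real.sqrt (s + 1) + Real.sqrt s) :=
              mul_lt_mul_of_pos_right hlt p1
          _ ≤ _ := mul_le_mul_of_nonneg_left p2 p3
      linarith
    push_cast
    linarith

/-- `1 / √(k+2) ≤ √(k/4 + 1) - √(k/4)` (floor division) -/
theorem inv_sqrt_le (k : ℕ) :
    1 / Real.sqrt (k + 2) ≤ Real.sqrt (((k / 4 : ℕ) : ℝ) + 1) - Real.sqrt ((k / 4 : ℕ) : ℝ) := by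
  set l : ℝ := ((k / 4 : ℕ) : ℝ) with hl
  have hl0 : 0 ≤ l := by positivity
  have hk : 4 * l ≤ k := by
    have : 4 * (k / 4) ≤ k := Nat.mul_div_le k 4
    rw [hl]; exact_mod_cast this
  have a1 := Real.sq_sqrt (show (0 : ℝ) ≤ l + 1 by positivity)
  have a2 := Real.sq_sqrt hl0
  have p1 : 0 < Real.sqrt (l + 1) := Real.sqrt_pos.2 (by positivity)
  have p2 := Real.sqrt_nonneg l
  set x := Real.sqrt (l + 1)
  set y := Real.sqrt l
  have e1 : (x - y) * (x + y) = 1 := by nlinarith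
  have e2 : (x + y) ≤ Real.sqrt (k + 2) := by
    apply Real.le_sqrt_of_sq_le
    nlinarith [sq_nonneg (x - y)]
  have p3 : 0 < x + y := by linarith
  have e3 : x - y = 1 / (x + y) := by
    rw [eq_div_iff p3.ne']; exact e1
  rw [e3]
  exact one_div_le_one_div_of_le p3 e2

theorem class_le (T : Finset ℕ) (j : ℕ) (hT : ∀ k ∈ T, k % 4 = j) :
    ∑ k ∈ T, 1 / Real.sqrt ((k : ℝ) + 2) ≤ Real.sqrt T.card := by
  classical
  have hinj : Set.InjOn (fun k : ℕ => k / 4) (T : Set ℕ) := by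
    intro a ha b hb h
    have h1 := hT a ha
    have h2 := hT b hb
    have h3 : a / 4 = b / 4 := h
    omega
  have h1 : ∑ k ∈ T, 1 / Real.sqrt ((k : ℝ) + 2) ≤
      ∑ k ∈ T, (Real.sqrt (((k / 4 : ℕ) : ℝ) + 1) - Real.sqrt ((k / 4 : ℕ) : ℝ)) :=
    Finset.sum_le_sum fun k _ => inv_sqrt_le k
  have h2 : ∑ k ∈ T, (Real.sqrt (((k / 4 : ℕ) : ℝ) + 1) - Real.sqrt ((k / 4 : ℕ) : ℝ)) =
      ∑ l ∈ T.image (fun k : ℕ => k / 4), (Real.sqrt (((l : ℕ) : ℝ) + 1) - Real.sqrt ((l : ℕ) : ℝ)) := by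
    rw [Finset.sum_image hinj]
  have h3 := sum_diff_le (T.image (fun k : ℕ => k / 4))
  rw [Finset.card_image_of_injOn hinj] at h3
  linarith

/-- the phases `i^k` with amplitudes `1/√(k+2)` -/
theorem phase_bound (S : Finset ℕ) :
    ‖∑ k ∈ S, Complex.I ^ k * ((1 / Real.sqrt ((k : ℝ) + 2) : ℝ) : ℂ)‖ ^ 2 ≤ S.card := by
  classical
  set x : ℕ → ℝ := fun j => ∑ k ∈ S.filter (fun k => k % 4 = j), 1 / Real.sqrt ((k : ℝ) + 2)
    with hx
  have hx0 : ∀ j, 0 ≤ x j := fun j => Finset.sum_nonneg fun k _ => by positivity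
  have hxle : ∀ j, x j ^ 2 ≤ ((S.filter (fun k => k % 4 = j)).card : ℝ) := by
    intro j
    have h1 := class_le (S.filter (fun k => k % 4 = j)) j
      (fun k hk => (Finset.mem_filter.1 hk).2)
    calc x j ^ 2 ≤ (Real.sqrt ((S.filter (fun k => k % 4 = j)).card : ℝ)) ^ 2 :=
          pow_le_pow_left₀ (hx0 j) h1 2
      _ = _ := Real.sq_sqrt (by positivity)
  have hsplit : ∑ k ∈ S, Complex.I ^ k * ((1 / Real.sqrt ((k : ℝ) + 2) : ℝ) : ℂ) =
      ((x 0 - x 2 : ℝ) : ℂ) + ((x 1 - x 3 : ℝ) : ℂ) * Complex.I := by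
    have h1 : ∑ k ∈ S, Complex.I ^ k * ((1 / Real.sqrt ((k : ℝ) + 2) : ℝ) : ℂ) =
        ∑ j ∈ range 4, ∑ k ∈ S.filter (fun k => k % 4 = j),
          Complex.I ^ k * ((1 / Real.sqrt ((k : ℝ) + 2) : ℝ) : ℂ) := by
      rw [Finset.sum_fiberwise_of_maps_to]
      intro k _
      exact mem_range.2 (Nat.mod_lt _ (by norm_num))
    have h2 : ∀ j ∈ range 4, ∑ k ∈ S.filter (fun k => k % 4 = j),
          Complex.I ^ k * ((1 / Real.sqrt ((k : ℝ) + 2) : ℝ) : ℂ) =
        Complex.I ^ j * ((x j : ℝ) : ℂ) := by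
      intro j _
      rw [hx]
      simp only [Complex.ofReal_sum]
      rw [Finset.mul_sum]
      apply Finset.sum_congr rfl
      intro k hk
      have hk4 := (Finset.mem_filter.1 hk).2
      have : Complex.I ^ k = Complex.I ^ j := by
        rw [← hk4, ← Complex.I_pow_eq_pow_mod]
      rw [this]
    rw [h1, Finset.sum_congr rfl h2]
    simp only [Finset.sum_range_succ, Finset.sum_range_zero]
    have i2 : Complex.I ^ 2 = -1 := Complex.I_sq
    have i3 : Complex.I ^ 3 = -Complex.I := by rw [pow_succ, i2]; ring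
    rw [i2, i3]
    push_cast
    ring
  rw [hsplit]
  have hn : ‖((x 0 - x 2 : ℝ) : ℂ) + ((x 1 - x 3 : ℝ) : ℂ) * Complex.I‖ ^ 2 =
      (x 0 - x 2) ^ 2 + (x 1 - x 3) ^ 2 := by
    rw [← Complex.normSq_eq_norm_sq, Complex.normSq_add_mul_I]
  rw [hn]
  have hcard : (S.card : ℝ) = ∑ j ∈ range 4, ((S.filter (fun k => k % 4 = j)).card : ℝ) := by
    have := Finset.card_eq_sum_card_fiberwise (s := S) (t := range 4) (f := fun k => k % 4)
      (fun k _ => by
        simp only [Finset.coe_range, Set.mem_Iio]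
        exact Nat.mod_lt _ (by norm_num))
    rw [this]; push_cast; rfl
  simp only [Finset.sum_range_succ, Finset.sum_range_zero] at hcard
  have h0 := hxle 0
  have h1 := hxle 1
  have h2 := hxle 2
  have h3 := hxle 3
  have m1 := mul_nonneg (hx0 0) (hx0 2)
  have m2 := mul_nonneg (hx0 1) (hx0 3)
  nlinarith

end Pool.Agent.H301R2.Sub
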