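import Pool.Agent.H301R2.Sub2

set_option autoImplicit false

namespace Pool.Agent.H301R2.Sub

open Finset

theorem func_bound {d : ℕ} (ψ : Fin d → ℂ) (c : ℝ) (hc : 0 ≤ c)
    (hS : ∀ S : Finset (Fin d), ‖∑ i ∈ S, ψ i‖ ≤ c * Real.sqrt S.card)
    (f : ℂ →ₗ[ℝ] ℝ) (hf : ∀ z, f z ≤ ‖z‖) :
    ∑ i, (max (f (ψ i)) 0) ^ 2 ≤
      c ^ 2 * ∑ k ∈ range d, (Real.sqrt (k + 1) - Real.sqrt k) ^ 2 := by
  classical
  apply vec_bound _ c hc (fun i => le_max_right _ _)
  intro S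
  have h1 : ∑ i ∈ S, max (f (ψ i)) 0 = ∑ i ∈ S.filter (fun i => 0 < f (ψ i)), f (ψ i) := by
    rw [Finset.sum_filter]
    apply Finset.sum_congr rfl
    intro i _
    split_ifs with h
    · exact max_eq_left h.le
    · exact max_eq_right (not_lt.1 h)
  rw [h1, ← map_sum]
  calc f (∑ i ∈ S.filter (fun i => 0 < f (ψ i)), ψ i)
      ≤ ‖∑ i ∈ S.filter (fun i => 0 < f (ψ i)), ψ i‖ := hf _
    _ ≤ c * Real.sqrt (S.filter (fun i => 0 < f (ψ i))).card := hS _
    _ ≤ c * Real.sqrt S.card := by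
        apply mul_le_mul_of_nonneg_left _ hc
        apply Real.sqrt_le_sqrt
        exact_mod_cast Finset.card_filter_le _ _

theorem exists_subset {d : ℕ} (hd : 1 ≤ d) (ψ : Fin d → ℂ) (hψ : ∑ i, ‖ψ i‖ ^ 2 = 1) :
    ∃ S : Finset (Fin d), S.Nonempty ∧
      1 / (Real.log d + 5) ≤ ‖∑ i ∈ S, ψ i‖ ^ 2 / S.card := by
  classical
  set F : Finset (Fin d) → ℝ := fun S => ‖∑ i ∈ S, ψ i‖ ^ 2 / S.card with hF
  obtain ⟨S0, hS0, hmax⟩ := Finset.exists_max_image
    ((univ : Finset (Finset (Fin d))).filter (fun S => S.Nonempty)) F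
    ⟨{⟨0, hd⟩}, by simp⟩
  have hS0' : S0.Nonempty := (Finset.mem_filter.1 hS0).2
  have hF0 : 0 ≤ F S0 := by simp only [hF]; positivity
  set c := Real.sqrt (F S0) with hc
  have hc0 : 0 ≤ c := Real.sqrt_nonneg _
  have hc2 : c ^ 2 = F S0 := Real.sq_sqrt hF0
  have hS : ∀ S : Finset (Fin d), ‖∑ i ∈ S, ψ i‖ ≤ c * Real.sqrt S.card := by
    intro S
    rcases S.eq_empty_or_nonempty with rfl | hne
    · simp
    · have h1 : F S ≤ F S0 := hmax S (by simp [hne])
      have hpos : (0 : ℝ) < S.card := by exact_mod_cast hne.card_pos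
      have h2 : ‖∑ i ∈ S, ψ i‖ ^ 2 ≤ F S0 * S.card := by
        rw [← div_le_iff₀ hpos]; exact h1
      rw [hc, ← Real.sqrt_mul hF0]
      exact Real.le_sqrt_of_sq_le h2
  set H := ∑ k ∈ range d, (Real.sqrt (k + 1) - Real.sqrt k) ^ 2 with hH
  have e1 := func_bound ψ c hc0 hS Complex.reLm (fun z => by
    simpa using (le_abs_self z.re).trans (Complex.abs_re_le_norm z))
  have e2 := func_bound ψ c hc0 hS (-Complex.reLm) (fun z => by
    simpa using (neg_le_abs z.re).trans (Complex.abs_re_le_norm z))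
  have e3 := func_bound ψ c hc0 hS Complex.imLm (fun z => by
    simpa using (le_abs_self z.im).trans (Complex.abs_im_le_norm z))
  have e4 := func_bound ψ c hc0 hS (-Complex.imLm) (fun z => by
    simpa using (neg_le_abs z.im).trans (Complex.abs_im_le_norm z))
  have hmx : ∀ x : ℝ, (max x 0) ^ 2 + (max (-x) 0) ^ 2 = x ^ 2 := by
    intro x
    rcases le_total 0 x with h | h
    · rw [max_eq_left h, max_eq_right (by linarith)]; ring
    · rw [max_eq_right h, max_eq_left (by linarith)]; ring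
  have hsum : ∑ i, ‖ψ i‖ ^ 2 =
      ∑ i, (max (Complex.reLm (ψ i)) 0) ^ 2 + ∑ i, (max ((-Complex.reLm) (ψ i)) 0) ^ 2 +
      ∑ i, (max (Complex.imLm (ψ i)) 0) ^ 2 + ∑ i, (max ((-Complex.imLm) (ψ i)) 0) ^ 2 := by
    rw [← Finset.sum_add_distrib, ← Finset.sum_add_distrib, ← Finset.sum_add_distrib]
    apply Finset.sum_congr rfl
    intro i _
    rw [← Complex.normSq_eq_norm_sq, Complex.normSq_apply]
    have h1 := hmx (ψ i).re
    have h2 := hmx (ψ i).im
    simp only [LinearMap.neg_apply, Complex.reLm_coe, Complex.imLm_coe]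
    linarith
  have hle : 1 ≤ c ^ 2 * (4 * H) := by
    rw [← hψ, hsum]; linarith
  have hH5 := H_le d hd
  have hlog : 0 ≤ Real.log d := Real.log_nonneg (by exact_mod_cast hd)
  refine ⟨S0, hS0', ?_⟩
  change 1 / (Real.log d + 5) ≤ F S0
  rw [div_le_iff₀ (by linarith), ← hc2]
  calc 1 ≤ c ^ 2 * (4 * H) := hle
    _ ≤ c ^ 2 * (Real.log d + 5) := mul_le_mul_of_nonneg_left (by linarith) (sq_nonneg c)

/-- the extremal vector -/
theorem exists_vector {d : ℕ} (hd : 3 ≤ d) :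
    ∃ ψ : Fin d → ℂ, ∑ i, ‖ψ i‖ ^ 2 = 1 ∧ ∀ S : Finset (Fin d),
      ‖∑ i ∈ S, ψ i‖ ^ 2 ≤ 1 / (Real.log d - 1) * S.card := by
  classical
  set W : ℝ := ∑ k ∈ range d, 1 / ((k : ℝ) + 2) with hW
  have hW1 : Real.log d - 1 ≤ W := by
    have h1 := log_add_one_le_harmonic (d + 1)
    unfold harmonic at h1
    rw [Finset.sum_range_succ'] at h1
    push_cast at h1
    have h2 : W = ∑ k ∈ range d, ((k : ℝ) + 1 + 1)⁻¹ := by
      rw [hW]
      apply Finset.sum_congr rfl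
      intro k _
      rw [one_div]; congr 1; ring
    have h3 : Real.log d ≤ Real.log ((d : ℝ) + 1 + 1) := by
      apply Real.log_le_log
      · have : (0 : ℝ) < d := by exact_mod_cast (by omega : 0 < d)
        exact this
      · linarith
    rw [h2]
    norm_num at h1
    norm_num
    linarith
  have hlog : 0 < Real.log d - 1 := by
    have h3 : (3 : ℝ) ≤ d := by exact_mod_cast hd
    have h4 : Real.log 3 ≤ Real.log d := Real.log_le_log (by norm_num) h3
    have h5 : 1 < Real.log 3 := by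
      rw [Real.lt_log_iff_exp_lt (by norm_num)]
      have := Real.exp_one_lt_d9
      linarith
    linarith
  have hWpos : 0 < W := lt_of_lt_of_le hlog hW1
  set c : ℝ := 1 / Real.sqrt W with hc
  have hsW : 0 < Real.sqrt W := Real.sqrt_pos.2 hWpos
  have hc2 : c ^ 2 = 1 / W := by
    rw [hc, div_pow, Real.sq_sqrt hWpos.le, one_pow]
  have hc0 : 0 < c := by rw [hc]; positivity
  refine ⟨fun i => (c : ℂ) * (Complex.I ^ (i : ℕ) *
    ((1 / Real.sqrt (((i : ℕ) : ℝ) + 2) : ℝ) : ℂ)), ?_, ?_⟩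
  · have h1 : ∀ i : Fin d, ‖(c : ℂ) * (Complex.I ^ (i : ℕ) *
        ((1 / Real.sqrt (((i : ℕ) : ℝ) + 2) : ℝ) : ℂ))‖ ^ 2 = c ^ 2 * (1 / (((i : ℕ) : ℝ) + 2)) := by
      intro i
      rw [norm_mul, norm_mul, norm_pow, Complex.norm_I, one_pow, one_mul, Complex.norm_real,
        Complex.norm_real, mul_pow, Real.norm_eq_abs, Real.norm_eq_abs, sq_abs, sq_abs]
      have h2 : (1 / Real.sqrt (((i : ℕ) : ℝ) + 2)) ^ 2 = 1 / (((i : ℕ) : ℝ) + 2) := by
        rw [div_pow, Real.sq_sqrt (by positivity), one_pow]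
      rw [h2]
    rw [Finset.sum_congr rfl (fun i _ => h1 i), ← Finset.mul_sum,
      ← Finset.sum_range (fun k => 1 / ((k : ℝ) + 2)), hc2, ← hW]
    field_simp
  · intro S
    rw [← Finset.mul_sum, norm_mul, mul_pow, Complex.norm_real, Real.norm_eq_abs, sq_abs, hc2]
    have h1 : ∑ i ∈ S, Complex.I ^ (i : ℕ) * ((1 / Real.sqrt (((i : ℕ) : ℝ) + 2) : ℝ) : ℂ) =
        ∑ k ∈ S.image (fun i : Fin d => (i : ℕ)),
          Complex.I ^ k * ((1 / Real.sqrt ((k : ℝ) + 2) : ℝ) : ℂ) := by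
      rw [Finset.sum_image (fun a _ b _ h => Fin.ext h)]
    have h2 := phase_bound (S.image (fun i : Fin d => (i : ℕ)))
    rw [Finset.card_image_of_injective _ Fin.val_injective] at h2
    rw [h1]
    have h3 : 1 / W ≤ 1 / (Real.log d - 1) := one_div_le_one_div_of_le hlog hW1
    calc 1 / W * _ ≤ 1 / W * (S.card : ℝ) := mul_le_mul_of_nonneg_left h2 (by positivity)
      _ ≤ 1 / (Real.log d - 1) * S.card := mul_le_mul_of_nonneg_right h3 (by positivity)

end Pool.Agent.H301R2.Sub
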